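import Pool.Agent.Helper44.SPL.St

/-! # HPM, part A: basic facts on `icl`, `IC`, `nu`, `PV`. -/

set_option autoImplicit false

namespace Pool.Agent.Helper95.SPL

open Polynomial Pool.Agent.Helper44.SPL

universe u

variable {Ω : Type u} [Field Ω]

theorem mem_icl {s : Set Ω} {x : Ω} : x ∈ icl s ↔ IsIntegral (Subring.closure s) x := Iff.rfl

theorem isIntegral_mono {R R' : Subring Ω} (h : R ≤ R') {x : Ω} (hx : IsIntegral R x) :
    IsIntegral R' x := by
  obtain ⟨p, hp, hx⟩ := hx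
  refine ⟨p.map (Subring.inclusion h), hp.map _, ?_⟩
  rw [eval₂_map]
  exact hx

theorem subset_icl (s : Set Ω) : s ⊆ icl s := fun x hx =>
  mem_icl.mpr (isIntegral_algebraMap (R := Subring.closure s)
    (x := (⟨x, Subring.subset_closure hx⟩ : Subring.closure s)))

theorem icl_mono {s t : Set Ω} (h : s ⊆ t) : icl s ≤ icl t := fun _ hx =>
  mem_icl.mpr (isIntegral_mono (Subring.closure_mono h) (mem_icl.mp hx))

theorem ic_iff {B : Subring Ω} : IC B ↔ ∀ x : Ω, IsIntegral B x → x ∈ B := by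
  unfold IC
  constructor
  · intro h x hx
    rw [← h, mem_icl, Subring.closure_eq]
    exact hx
  · intro h
    refine le_antisymm (fun x hx => ?_) (subset_icl _)
    rw [mem_icl, Subring.closure_eq] at hx
    exact h x hx

theorem icl_le {s : Set Ω} {B : Subring Ω} (hB : IC B) (h : s ⊆ B) : icl s ≤ B := fun x hx =>
  ic_iff.mp hB x (isIntegral_mono (Subring.closure_le.mpr h) (mem_icl.mp hx))

theorem isIntegral_trans' {R D : Subring Ω} (hRD : ∀ x ∈ D, IsIntegral R x) (x : Ω)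
    (hx : IsIntegral D x) : IsIntegral R x := by
  have h1 : D ≤ (integralClosure R Ω).toSubring := fun y hy => hRD y hy
  have h2 : IsIntegral (integralClosure R Ω) x := by
    obtain ⟨p, hp, hx⟩ := hx
    refine ⟨p.map (Subring.inclusion h1), hp.map _, ?_⟩
    rw [eval₂_map]
    exact hx
  exact isIntegral_trans (R := R) (A := integralClosure R Ω) x h2

theorem ic_icl (s : Set Ω) : IC (icl s) := by
  rw [ic_iff]
  intro x hx
  exact isIntegral_trans' (R := Subring.closure s) (D := icl s) (fun _ h => h) x hx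

/-- monic polynomials over an integrally closed ring have their roots in the ring -/
theorem mem_of_monic {B : Subring Ω} (hB : IC B) {x : Ω} {f : B[X]} (hf : f.Monic)
    (h : aeval x f = 0) : x ∈ B := ic_iff.mp hB x ⟨f, hf, h⟩

theorem nu_iff {T : Subring Ω} {x : Ω} : x ∈ nu T ↔ x ∈ T ∧ (x = 0 ∨ x⁻¹ ∉ T) := Iff.rfl

theorem isUnit_iff' {T : Subring Ω} {x : T} : IsUnit x ↔ (x : Ω) ≠ 0 ∧ (x : Ω)⁻¹ ∈ T := by
  constructor
  · rintro ⟨u, rfl⟩
    have h : ((u : T) : Ω) * ((u⁻¹ : Tˣ) : T) = 1 := by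
      rw [← Subring.coe_mul, ← Units.val_mul, mul_inv_cancel]; rfl
    refine ⟨left_ne_zero_of_mul_eq_one h, ?_⟩
    rw [← eq_inv_of_mul_eq_one_right h]
    exact ((u⁻¹ : Tˣ) : T).2
  · rintro ⟨h0, h1⟩
    exact IsUnit.of_mul_eq_one ⟨_, h1⟩ (Subtype.ext (mul_inv_cancel₀ h0))

theorem mem_nu_iff_not_isUnit {T : Subring Ω} {x : T} : (x : Ω) ∈ nu T ↔ ¬ IsUnit x := by
  rw [isUnit_iff', nu_iff]
  have := x.2
  tauto

theorem mem_nu_iff_mem_maximalIdeal {T : Subring Ω} [IsLocalRing T] {x : T} :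
    (x : Ω) ∈ nu T ↔ x ∈ IsLocalRing.maximalIdeal T := by
  rw [mem_nu_iff_not_isUnit, IsLocalRing.mem_maximalIdeal, mem_nonunits_iff]

theorem nu_add {T : Subring Ω} [IsLocalRing T] {x y : Ω} (hx : x ∈ nu T) (hy : y ∈ nu T) :
    x + y ∈ nu T := by
  have h1 := (mem_nu_iff_mem_maximalIdeal (x := ⟨x, hx.1⟩)).mp hx
  have h2 := (mem_nu_iff_mem_maximalIdeal (x := ⟨y, hy.1⟩)).mp hy
  exact (mem_nu_iff_mem_maximalIdeal (x := ⟨x, hx.1⟩ + ⟨y, hy.1⟩)).mpr (add_mem h1 h2)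

theorem nu_mul {T : Subring Ω} [IsLocalRing T] {x y : Ω} (hx : x ∈ T) (hy : y ∈ nu T) :
    x * y ∈ nu T := by
  have h2 := (mem_nu_iff_mem_maximalIdeal (x := ⟨y, hy.1⟩)).mp hy
  exact (mem_nu_iff_mem_maximalIdeal (x := ⟨x, hx⟩ * ⟨y, hy.1⟩)).mpr (Ideal.mul_mem_left _ _ h2)

theorem nu_neg {T : Subring Ω} [IsLocalRing T] {x : Ω} (hx : x ∈ nu T) : -x ∈ nu T := by
  have := nu_mul (T := T) (x := -1) (neg_mem T.one_mem) hx
  simpa using this

theorem zero_nu (T : Subring Ω) : (0 : Ω) ∈ nu T := ⟨T.zero_mem, Or.inl rfl⟩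

theorem one_notMem_nu (T : Subring Ω) : (1 : Ω) ∉ nu T := by
  rintro ⟨_, h | h⟩
  · exact one_ne_zero h
  · exact h (by simpa using T.one_mem)

section PV

variable {T A : Subring Ω}

theorem pv_inv_mem (h : PV T A) {x : Ω} (hx : x ∈ T) (hA : x ∉ A) : x⁻¹ ∈ A :=
  (h.val x hx).resolve_left hA

/-- `A` is integrally closed -/
theorem pv_ic (h : PV T A) (hT : IC T) : IC A := by
  rw [ic_iff]
  intro x hx
  have hxT : x ∈ T := ic_iff.mp hT x (isIntegral_mono h.le hx)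
  by_contra hA
  have h1 : x⁻¹ ∈ A := pv_inv_mem h hxT hA
  have hx0 : x ≠ 0 := fun h0 => hA (h0 ▸ A.zero_mem)
  obtain ⟨p, hp, hx⟩ := hx
  -- multiply the equation by `x⁻¹ ^ (n-1)`
  set n := p.natDegree with hn
  rcases Nat.eq_zero_or_pos n with h0 | hpos
  · have : p = 1 := hp.natDegree_eq_zero.mp h0
    rw [this, eval₂_one] at hx
    exact one_ne_zero hx
  · have h3 : x = - ∑ i ∈ Finset.range n, ((p.coeff i : A) : Ω) * x⁻¹ ^ (n - 1 - i) := by
      rw [eval₂_eq_sum_range, Finset.sum_range_succ, ← hn, hp.coeff_natDegree, map_one,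
        one_mul] at hx
      have h4 : x⁻¹ ^ (n - 1) * (∑ i ∈ Finset.range n, (algebraMap A Ω) (p.coeff i) * x ^ i)
          = ∑ i ∈ Finset.range n, ((p.coeff i : A) : Ω) * x⁻¹ ^ (n - 1 - i) := by
        rw [Finset.mul_sum]
        refine Finset.sum_congr rfl fun i hi => ?_
        have hi' : i ≤ n - 1 := by have := Finset.mem_range.mp hi; omega
        have : x⁻¹ ^ (n - 1) = x⁻¹ ^ (n - 1 - i) * x⁻¹ ^ i := by
          rw [← pow_add]; congr 1; omega
        rw [this]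
        have h5 : x⁻¹ ^ i * x ^ i = 1 := by rw [← mul_pow, inv_mul_cancel₀ hx0, one_pow]
        change x⁻¹ ^ (n - 1 - i) * x⁻¹ ^ i * (((p.coeff i : A) : Ω) * x ^ i) = _
        linear_combination (((p.coeff i : A) : Ω) * x⁻¹ ^ (n - 1 - i)) * h5
      have h6 : x⁻¹ ^ (n - 1) * x ^ n = x := by
        have : x ^ n = x ^ (n - 1) * x := by rw [← pow_succ]; congr 1; omega
        rw [this, ← mul_assoc, ← mul_pow, inv_mul_cancel₀ hx0, one_pow, one_mul]
      rw [← h4]
      linear_combination x⁻¹ ^ (n - 1) * hx - h6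
    apply hA
    rw [h3]
    exact neg_mem (sum_mem fun i _ => A.mul_mem (p.coeff i).2 (A.pow_mem h1 _))

theorem pv_nu_le (h : PV T A) [IsLocalRing T] {x : Ω} (hx : x ∈ nu T) : x ∈ nu A := by
  refine ⟨h.nu_sub hx, ?_⟩
  rcases hx.2 with h0 | h1
  · exact Or.inl h0
  · exact Or.inr fun h2 => h1 (h.le h2)

/-- `A` is local -/
theorem pv_isLocalRing (h : PV T A) [IsLocalRing T] : IsLocalRing A := by
  refine IsLocalRing.of_nonunits_add ?_
  intro a b ha hb hab
  -- `a`, `b` nonunits of `A`, `a + b` a unit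
  have ha' := (mem_nu_iff_not_isUnit (x := a)).mpr ha
  have hb' := (mem_nu_iff_not_isUnit (x := b)).mpr hb
  obtain ⟨h0, h1⟩ := isUnit_iff'.mp hab
  have key : ∀ a b : A, (a : Ω) ∈ nu A → (((a + b : A) : Ω) ≠ 0) → ((a + b : A) : Ω)⁻¹ ∈ A →
      (b : Ω) / a ∈ A → (a : Ω) = 0 := by
    intro a b ha h0 h1 hba
    rcases ha.2 with h | h
    · exact h
    · by_contra ha0
      apply h
      have h2 : (a : Ω)⁻¹ = (1 + (b : Ω) / a) * ((a + b : A) : Ω)⁻¹ := by
        rw [Subring.coe_add] at h0 ⊢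
        field_simp
      rw [h2]
      exact A.mul_mem (A.add_mem A.one_mem hba) h1
  -- one of `a/b`, `b/a` is in `A`
  by_cases haT : (a : Ω) ∈ nu T
  · by_cases hbT : (b : Ω) ∈ nu T
    · have h2 : ((a + b : A) : Ω) ∈ nu A := by
        rw [Subring.coe_add]; exact pv_nu_le h (nu_add haT hbT)
      exact (mem_nu_iff_not_isUnit.mp h2) hab
    · -- `b` a unit in `T`
      have hb0 : (b : Ω) ≠ 0 := fun h0 => hbT (by rw [h0]; exact zero_nu T)
      have hbi : (b : Ω)⁻¹ ∈ T := by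
        by_contra h2; exact hbT ⟨h.le b.2, Or.inr h2⟩
      have h2 : (a : Ω) / b ∈ A := by
        rw [div_eq_mul_inv, mul_comm]; exact h.nu_sub (nu_mul hbi haT)
      exact hb0 (key b a hb' (by rwa [add_comm]) (by rwa [add_comm]) h2)
  · have ha0 : (a : Ω) ≠ 0 := fun h0 => haT (by rw [h0]; exact zero_nu T)
    have hai : (a : Ω)⁻¹ ∈ T := by
      by_contra h2; exact haT ⟨h.le a.2, Or.inr h2⟩
    have hbaT : (b : Ω) / a ∈ T := by
      rw [div_eq_mul_inv]; exact T.mul_mem (h.le b.2) hai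
    rcases h.val _ hbaT with h2 | h2
    · exact ha0 (key a b ha' h0 h1 h2)
    · rw [inv_div] at h2
      by_cases hb0 : (b : Ω) = 0
      · have : (b : Ω) / a ∈ A := by rw [hb0, zero_div]; exact A.zero_mem
        exact ha0 (key a b ha' h0 h1 this)
      · exact hb0 (key b a hb' (by rwa [add_comm]) (by rwa [add_comm]) h2)

/-- elements of `T` that are not in `nu T` have inverses in `T` -/
theorem inv_mem_of_notMem_nu {x : Ω} (hx : x ∈ T) (h : x ∉ nu T) : x⁻¹ ∈ T := by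
  by_contra h1
  exact h ⟨hx, Or.inr h1⟩

theorem ne_zero_of_notMem_nu {x : Ω} (h : x ∉ nu T) : x ≠ 0 := fun h0 =>
  h (by rw [h0]; exact zero_nu T)

end PV

end Pool.Agent.Helper95.SPL
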