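import Pool.Agent.Helper95.SPL.A

/-! # HPM, part B: the value of a function at a closed point. -/

set_option autoImplicit false

namespace Pool.Agent.Helper95.SPL

open Polynomial Pool.Agent.Helper44.SPL

universe u

variable {Ω : Type u} [Field Ω]

/-- a monic polynomial over an integrally closed subring of an algebraically closed field is a
product of linear factors over the subring -/
theorem exists_roots [IsAlgClosed Ω] {A : Subring Ω} (hA : IC A) {f : A[X]} (hf : f.Monic) :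
    ∃ s : Multiset A, f = (s.map fun a => X - C a).prod := by
  classical
  have h1 : (f.map (algebraMap A Ω)).Splits := IsAlgClosed.splits _
  obtain ⟨m, hm⟩ := Polynomial.splits_iff_exists_multiset.mp h1
  rw [(hf.map _).leadingCoeff, C_1, one_mul] at hm
  have h2 : ∀ x ∈ m, x ∈ A := by
    intro x hx
    refine mem_of_monic hA hf ?_
    rw [aeval_def, ← eval_map, hm, eval_multiset_prod, Multiset.prod_eq_zero]
    rw [Multiset.map_map, Multiset.mem_map]
    exact ⟨x, hx, by simp⟩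
  refine ⟨m.attach.map fun x => (⟨x.1, h2 x.1 x.2⟩ : A), ?_⟩
  apply Polynomial.map_injective (algebraMap A Ω) Subtype.val_injective
  rw [hm, Polynomial.map_multiset_prod, Multiset.map_map, Multiset.map_map]
  conv_lhs => rw [← Multiset.attach_map_val m, Multiset.map_map]
  congr 1
  refine Multiset.map_congr rfl fun x _ => ?_
  simp only [Function.comp_apply, Polynomial.map_sub, map_X, map_C]
  rfl

/-- elements of a domain that are integral over the image of `A` are in the image of `A` -/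
theorem mem_range_of_isIntegralElem [IsAlgClosed Ω] {A : Subring Ω} (hA : IC A) {Q : Type u}
    [CommRing Q] [IsDomain Q] (ι : A →+* Q) {q : Q} (hq : ι.IsIntegralElem q) :
    ∃ a : A, ι a = q := by
  obtain ⟨f, hf, h⟩ := hq
  obtain ⟨s, rfl⟩ := exists_roots hA hf
  rw [← coe_eval₂RingHom, map_multiset_prod, Multiset.prod_eq_zero_iff, Multiset.map_map,
    Multiset.mem_map] at h
  obtain ⟨a, _, ha⟩ := h
  refine ⟨a, ?_⟩
  simp only [Function.comp_apply, coe_eval₂RingHom, eval₂_sub, eval₂_X, eval₂_C] at ha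
  exact (sub_eq_zero.mp ha).symm

section point

variable {T A : Subring Ω} {X : Ω}

theorem T_le (T : Subring Ω) (X : Ω) : T ≤ icl ((T : Set Ω) ∪ {X}) := fun _ hx =>
  subset_icl _ (Or.inl hx)

theorem X_mem (T : Subring Ω) (X : Ω) : X ∈ icl ((T : Set Ω) ∪ {X}) :=
  subset_icl _ (Or.inr rfl)

theorem icl_le_icl (h : A ≤ T) (X : Ω) : icl ((A : Set Ω) ∪ {X}) ≤ icl ((T : Set Ω) ∪ {X}) :=
  icl_mono (Set.union_subset_union_left _ h)

/-- the elements of `icl (A, X)` are congruent to elements of `A` modulo `P` -/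
theorem exists_sub_mem [IsAlgClosed Ω] (hT : IC T) (hPV : PV T A)
    (P : Ideal (icl ((T : Set Ω) ∪ {X}))) [hP : P.IsPrime]
    (hξ : ∃ ξ ∈ A, ∀ h : X - ξ ∈ icl ((T : Set Ω) ∪ {X}), ⟨X - ξ, h⟩ ∈ P)
    {d : Ω} (hd : d ∈ icl ((A : Set Ω) ∪ {X})) (hd' : d ∈ icl ((T : Set Ω) ∪ {X})) :
    ∃ a ∈ A, ∀ h : d - a ∈ icl ((T : Set Ω) ∪ {X}), ⟨d - a, h⟩ ∈ P := by
  let D := icl ((T : Set Ω) ∪ {X})
  let j : A →+* D := Subring.inclusion (hPV.le.trans (T_le T X))
  let ψ : D →+* D ⧸ P := Ideal.Quotient.mk P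
  let ι : A →+* D ⧸ P := ψ.comp j
  have hRD : Subring.closure ((A : Set Ω) ∪ {X}) ≤ D := by
    rw [Subring.closure_le]
    exact (Set.union_subset_union_left _ hPV.le).trans (subset_icl _)
  -- the ring generated by `A` and `X`
  have h1 : ∀ r : Ω, ∀ hr : r ∈ Subring.closure ((A : Set Ω) ∪ {X}),
      ∃ a : A, ι a = ψ ⟨r, hRD hr⟩ := by
    intro r hr
    have h2 : (⟨r, hRD hr⟩ : D) ∈ (ι.range.comap ψ) := by
      have h3 : Subring.closure ((A : Set Ω) ∪ {X}) ≤ (ι.range.comap ψ).map D.subtype := by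
        rw [Subring.closure_le]
        rintro x (hx | hx)
        · exact ⟨j ⟨x, hx⟩, ⟨⟨x, hx⟩, rfl⟩, rfl⟩
        · rw [Set.mem_singleton_iff] at hx
          subst hx
          obtain ⟨ξ, hξA, hξ⟩ := hξ
          refine ⟨⟨x, X_mem T x⟩, ⟨⟨ξ, hξA⟩, ?_⟩, rfl⟩
          have h4 := hξ (D.sub_mem (X_mem T x) (T_le T x (hPV.le hξA)))
          have h5 : ψ ⟨x, X_mem T x⟩ - ι ⟨ξ, hξA⟩ = 0 := by
            change ψ ⟨x, X_mem T x⟩ - ψ (j ⟨ξ, hξA⟩) = 0
            rw [← map_sub]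
            exact Ideal.Quotient.eq_zero_iff_mem.mpr h4
          exact (sub_eq_zero.mp h5).symm
      obtain ⟨y, hy, hyr⟩ := h3 hr
      have : y = ⟨r, hRD hr⟩ := Subtype.ext hyr
      rw [← this]; exact hy
    exact h2
  have h2 : ι.IsIntegralElem (ψ ⟨d, hd'⟩) := by
    obtain ⟨f, hf, hfd⟩ := mem_icl.mp hd
    let k : Subring.closure ((A : Set Ω) ∪ {X}) →+* D := Subring.inclusion hRD
    have h3 : f.map (ψ.comp k) ∈ Polynomial.lifts ι := by
      rw [Polynomial.lifts_iff_coeff_lifts]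
      intro i
      rw [coeff_map]
      exact h1 _ (f.coeff i).2
    obtain ⟨g, hg, _, hgm⟩ := lifts_and_natDegree_eq_and_monic h3 (hf.map _)
    refine ⟨g, hgm, ?_⟩
    rw [← eval_map, hg, eval_map, ← hom_eval₂]
    have h4 : eval₂ k (⟨d, hd'⟩ : D) f = 0 := by
      apply Subtype.val_injective
      change D.subtype _ = D.subtype 0
      rw [hom_eval₂, map_zero]
      exact hfd
    rw [h4, map_zero]
  obtain ⟨a, ha⟩ := mem_range_of_isIntegralElem (pv_ic hPV hT) ι h2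
  refine ⟨a, a.2, fun h => ?_⟩
  rw [← Ideal.Quotient.eq_zero_iff_mem]
  have : (⟨d - a, h⟩ : D) = ⟨d, hd'⟩ - j a := rfl
  change ψ _ = 0
  rw [this, map_sub, ← ha]
  exact sub_self _

/-- elements of `T` in a proper ideal that contains `nu T` -/
theorem mem_nu_of_mem [IsLocalRing T] (P : Ideal (icl ((T : Set Ω) ∪ {X}))) (hP : P ≠ ⊤)
    {t : Ω} (ht : t ∈ T) (h : (⟨t, T_le T X ht⟩ : icl ((T : Set Ω) ∪ {X})) ∈ P) : t ∈ nu T := by
  by_contra h1
  apply hP
  have h2 := inv_mem_of_notMem_nu ht h1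
  have h3 := P.mul_mem_left ⟨t⁻¹, T_le T X h2⟩ h
  have h4 : (⟨t⁻¹, T_le T X h2⟩ : icl ((T : Set Ω) ∪ {X})) * ⟨t, T_le T X ht⟩ = 1 :=
    Subtype.ext (inv_mul_cancel₀ (ne_zero_of_notMem_nu h1))
  rw [h4] at h3
  exact (Ideal.eq_top_iff_one _).mpr h3

/-- the constant of H is in the maximal ideal if the function vanishes at a closed point -/
theorem const_mem_nu [IsAlgClosed Ω] [IsLocalRing T] (hT : IC T) (hPV : PV T A)
    (P : Ideal (icl ((T : Set Ω) ∪ {X}))) [hP : P.IsPrime]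
    (hξ : ∃ ξ ∈ A, ∀ h : X - ξ ∈ icl ((T : Set Ω) ∪ {X}), ⟨X - ξ, h⟩ ∈ P)
    {y : Ω} (hy : y ∈ icl ((A : Set Ω) ∪ {X}))
    (hyP : ∀ h : y ∈ icl ((T : Set Ω) ∪ {X}), ⟨y, h⟩ ∈ P) {c : Ω} (hc : c ∈ A) {m : ℕ}
    (hm : (y - c) ^ m ∈ ext (nu A) (icl ((A : Set Ω) ∪ {X}))) : c ∈ nu A := by
  haveI := pv_isLocalRing hPV
  let D := icl ((T : Set Ω) ∪ {X})
  have hle : icl ((A : Set Ω) ∪ {X}) ≤ D := icl_le_icl hPV.le X
  -- elements of `nu A · icl (A, X)` are congruent to elements of `nu A`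
  have key : ∀ z ∈ ext (nu A) (icl ((A : Set Ω) ∪ {X})), z ∈ icl ((A : Set Ω) ∪ {X}) ∧
      ∃ a ∈ nu A, ∀ h : z - a ∈ D, (⟨z - a, h⟩ : D) ∈ P := by
    intro z hz
    induction hz using Submodule.span_induction with
    | mem x hx =>
      refine ⟨T_le A X hx.1, x, hx, fun h => ?_⟩
      have : (⟨x - x, h⟩ : D) = 0 := Subtype.ext (sub_self x)
      rw [this]; exact P.zero_mem
    | zero =>
      refine ⟨zero_mem _, 0, zero_nu A, fun h => ?_⟩
      have : (⟨0 - 0, h⟩ : D) = 0 := Subtype.ext (sub_self 0)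
      rw [this]; exact P.zero_mem
    | add x y _ _ hx hy =>
      obtain ⟨hx1, a, ha, hxa⟩ := hx
      obtain ⟨hy1, b, hb, hyb⟩ := hy
      refine ⟨add_mem hx1 hy1, a + b, nu_add ha hb, fun h => ?_⟩
      have h1 := hxa (D.sub_mem (hle hx1) (hle (T_le A X ha.1)))
      have h2 := hyb (D.sub_mem (hle hy1) (hle (T_le A X hb.1)))
      have h3 := P.add_mem h1 h2
      convert h3 using 1
      exact Subtype.ext (by change x + y - (a + b) = (x - a) + (y - b); ring)
    | smul d x _ hx =>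
      obtain ⟨hx1, a, ha, hxa⟩ := hx
      obtain ⟨b, hb, hdb⟩ := exists_sub_mem hT hPV P hξ d.2 (hle d.2)
      refine ⟨mul_mem d.2 hx1, b * a, nu_mul hb ha, fun h => ?_⟩
      have h1 := hxa (D.sub_mem (hle hx1) (hle (T_le A X ha.1)))
      have h2 := hdb (D.sub_mem (hle d.2) (hle (T_le A X hb)))
      have h3 := P.add_mem (P.mul_mem_left ⟨(d : Ω), hle d.2⟩ h1)
        (P.mul_mem_left ⟨a, hle (T_le A X ha.1)⟩ h2)
      convert h3 using 1
      exact Subtype.ext (by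
        change (d : Ω) * x - b * a = (d : Ω) * (x - a) + a * ((d : Ω) - b); ring)
  obtain ⟨_, a, ha, hPa⟩ := key _ hm
  -- `(- c)^m ∈ a + P`
  have h1 : (⟨y, hle hy⟩ : D) ∈ P := hyP _
  have hcT : c ∈ T := hPV.le hc
  have h2 : (- c) ^ m - a ∈ nu T := by
    refine mem_nu_of_mem (X := X) P hP.ne_top
      (T.sub_mem (T.pow_mem (T.neg_mem hcT) _) (hPV.le ha.1)) ?_
    have h3 := hPa (D.sub_mem (D.pow_mem (D.sub_mem (hle hy) (T_le T X hcT)) _)
      (hle (T_le A X ha.1)))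
    obtain ⟨r, hr⟩ := sub_dvd_pow_sub_pow ((⟨y, hle hy⟩ : D) - ⟨c, T_le T X hcT⟩)
      (- ⟨c, T_le T X hcT⟩) m
    have h4 : ((⟨y, hle hy⟩ : D) - ⟨c, T_le T X hcT⟩ - - ⟨c, T_le T X hcT⟩) * r ∈ P := by
      refine P.mul_mem_right _ ?_
      rw [sub_neg_eq_add, sub_add_cancel]; exact h1
    rw [← hr] at h4
    have h5 := P.sub_mem h3 h4
    convert h5 using 1
    exact Subtype.ext (by
      change (-c) ^ m - a = (y - c) ^ m - a - ((y - c) ^ m - (- c) ^ m)
      ring)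
  have h3 : (- c) ^ m ∈ nu A := by
    have := nu_add (pv_nu_le hPV h2) ha
    rwa [sub_add_cancel] at this
  -- so `c` is not a unit
  refine ⟨hc, ?_⟩
  by_contra h
  push Not at h
  obtain ⟨hc0, hci⟩ := h
  have h4 : ((- c) ^ m)⁻¹ ∈ A := by
    rw [← inv_pow]
    refine A.pow_mem ?_ _
    rw [inv_neg]; exact A.neg_mem hci
  rcases h3.2 with h5 | h5
  · exact pow_ne_zero m (neg_ne_zero.mpr hc0) h5
  · exact h5 h4

/-- powers of `y` -/
theorem pow_mem_of_const {A : Subring Ω} [IsLocalRing A] {D : Subring Ω} (hAD : A ≤ D) {y c : Ω}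
    (hy : y ∈ D) (hc : c ∈ nu A) {m : ℕ} (hm : (y - c) ^ m ∈ ext (nu A) D) :
    y ^ m ∈ ext (nu A) D := by
  have hcD : c ∈ D := hAD hc.1
  obtain ⟨r, hr⟩ := sub_dvd_pow_sub_pow (⟨y, hy⟩ : D) (⟨y, hy⟩ - ⟨c, hcD⟩) m
  have h1 : y ^ m - (y - c) ^ m = c * r := by
    have := congrArg Subtype.val hr
    have h2 : (y : Ω) ^ m - (y - c) ^ m = (y - (y - c)) * r := this
    rw [h2]; ring
  have h2 : y ^ m = (y - c) ^ m + (r : D) • c := by
    change y ^ m = (y - c) ^ m + (r : Ω) * c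
    linear_combination h1
  rw [h2]
  exact add_mem hm (Submodule.smul_mem _ _ (Submodule.subset_span hc))

end point

end Pool.Agent.Helper95.SPL
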