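import Pool.Agent.Helper95.SPL.B

/-! # HPM, part C: the residue field of `T` and the valuation ring of `A`. -/

set_option autoImplicit false

namespace Pool.Agent.Helper95.SPL

open Polynomial Pool.Agent.Helper44.SPL

universe u

variable {Ω : Type u} [Field Ω] {T A : Subring Ω}

/-- the residue field of an integrally closed local subring of an algebraically closed field -/
theorem isAlgClosed_residueField [IsAlgClosed Ω] [IsLocalRing T] (hT : IC T) :
    IsAlgClosed (IsLocalRing.ResidueField T) := by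
  refine IsAlgClosed.of_exists_root _ fun p hp hirr => ?_
  have h1 : p ∈ Polynomial.lifts (IsLocalRing.residue T) := by
    rw [Polynomial.lifts_iff_coeff_lifts]
    exact fun i => IsLocalRing.residue_surjective _
  obtain ⟨g, hg, hdeg, hgm⟩ := lifts_and_natDegree_eq_and_monic h1 hp
  obtain ⟨s, hs⟩ := exists_roots hT hgm
  have h2 : s ≠ 0 := by
    rintro rfl
    rw [Multiset.map_zero, Multiset.prod_zero] at hs
    rw [hs, natDegree_one] at hdeg
    exact hirr.natDegree_pos.ne hdeg
  obtain ⟨a, ha⟩ := Multiset.exists_mem_of_ne_zero h2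
  refine ⟨IsLocalRing.residue T a, ?_⟩
  rw [← hg, hs, ← coe_evalRingHom, ← coe_mapRingHom, map_multiset_prod, map_multiset_prod,
    Multiset.prod_eq_zero]
  rw [Multiset.map_map, Multiset.map_map, Multiset.mem_map]
  exact ⟨a, ha, by simp⟩

/-- the homomorphism `A → κ` -/
noncomputable def phi [IsLocalRing T] (h : A ≤ T) : A →+* IsLocalRing.ResidueField T :=
  (IsLocalRing.residue T).comp (Subring.inclusion h)

/-- the valuation ring `V` of `κ` -/
noncomputable def VV [IsLocalRing T] (h : PV T A) :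
    ValuationSubring (IsLocalRing.ResidueField T) where
  toSubring := (phi h.le).range
  mem_or_inv_mem' := by
    intro x
    obtain ⟨t, rfl⟩ := IsLocalRing.residue_surjective x
    by_cases ht : (t : Ω) ∈ A
    · exact Or.inl ⟨⟨t, ht⟩, rfl⟩
    · right
      have h1 : (t : Ω)⁻¹ ∈ A := pv_inv_mem h t.2 ht
      refine ⟨⟨_, h1⟩, ?_⟩
      have h2 : (t : Ω) ≠ 0 := fun h0 => ht (by rw [h0]; exact A.zero_mem)
      have h3 : phi h.le ⟨_, h1⟩ * IsLocalRing.residue T t = 1 := by
        change IsLocalRing.residue T _ * IsLocalRing.residue T t = 1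
        rw [← map_mul, ← map_one (IsLocalRing.residue T)]
        congr 1
        exact Subtype.ext (inv_mul_cancel₀ h2)
      exact eq_inv_of_mul_eq_one_left h3

theorem mem_VV [IsLocalRing T] (h : PV T A) {t : T} :
    IsLocalRing.residue T t ∈ VV h ↔ (t : Ω) ∈ A := by
  constructor
  · rintro ⟨a, ha⟩
    have h1 : t - Subring.inclusion h.le a ∈ IsLocalRing.maximalIdeal T := by
      rw [← IsLocalRing.residue_eq_zero_iff, map_sub, ← ha]
      exact sub_self _
    have h2 := h.nu_sub (mem_nu_iff_mem_maximalIdeal.mpr h1)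
    have h3 : (t : Ω) = ((t - Subring.inclusion h.le a : T) : Ω) + a := by
      change (t : Ω) = (t : Ω) - a + a
      ring
    rw [h3]
    exact A.add_mem h2 a.2
  · intro ht
    exact ⟨⟨t, ht⟩, rfl⟩

/-- units of `T` have nonzero residue -/
theorem residue_ne_zero [IsLocalRing T] {t : T} : IsLocalRing.residue T t ≠ 0 ↔ (t : Ω) ∉ nu T := by
  rw [Ne, IsLocalRing.residue_eq_zero_iff, mem_nu_iff_mem_maximalIdeal]

theorem residue_inv [IsLocalRing T] {x : Ω} (hx : x ∈ T) (hx' : x⁻¹ ∈ T) (h0 : x ≠ 0) :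
    IsLocalRing.residue T ⟨x⁻¹, hx'⟩ = (IsLocalRing.residue T ⟨x, hx⟩)⁻¹ := by
  refine eq_inv_of_mul_eq_one_left ?_
  rw [← map_mul, ← map_one (IsLocalRing.residue T)]
  congr 1
  exact Subtype.ext (inv_mul_cancel₀ h0)

/-- nonunits of `V` come from `nu A` -/
theorem mem_nu_of_VV [IsLocalRing T] (h : PV T A) {t : T} (ht : (t : Ω) ∈ A)
    (hn : IsLocalRing.residue T t = 0 ∨ (IsLocalRing.residue T t)⁻¹ ∉ VV h) : (t : Ω) ∈ nu A := by
  refine ⟨ht, ?_⟩
  by_cases h0 : (t : Ω) = 0
  · exact Or.inl h0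
  · right
    intro h1
    have h2 := residue_inv t.2 (h.le h1) h0
    rcases hn with hn | hn
    · have := (IsLocalRing.residue_eq_zero_iff _).mp hn
      have := mem_nu_iff_mem_maximalIdeal.mpr this
      rcases this.2 with h3 | h3
      · exact h0 h3
      · exact h3 (h.le h1)
    · apply hn
      have h3 : IsLocalRing.residue T t = IsLocalRing.residue T ⟨t, t.2⟩ := rfl
      rw [h3, ← h2]
      exact (mem_VV h).mpr h1

/-- two variable polynomials over `κ` with coefficients in `V` lift to `A` -/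
theorem exists_lift [IsLocalRing T] (h : PV T A)
    {N : (IsLocalRing.ResidueField T)[X][X]} (hN : N.Monic)
    (hc : ∀ i j, (N.coeff i).coeff j ∈ VV h) :
    ∃ M : A[X][X], M.Monic ∧ M.natDegree = N.natDegree ∧
      M.map (mapRingHom (phi h.le)) = N := by
  have h1 : N ∈ Polynomial.lifts (mapRingHom (phi h.le)) := by
    rw [Polynomial.lifts_iff_coeff_lifts]
    intro i
    have h2 : N.coeff i ∈ Polynomial.lifts (phi h.le) := by
      rw [Polynomial.lifts_iff_coeff_lifts]
      exact fun j => hc i j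
    exact h2
  obtain ⟨g, hg, hdeg, hgm⟩ := lifts_and_natDegree_eq_and_monic h1 hN
  exact ⟨g, hgm, hdeg, hg⟩

theorem ev2_def {R S : Type u} [CommRing R] [CommRing S] (i : R →+* S) (F : R[X][X]) (a b : S) :
    ev2 i F a b = eval₂ (eval₂RingHom i a) b F := by
  rw [ev2, eval_map]

theorem hom_ev2 {R S S' : Type u} [CommRing R] [CommRing S] [CommRing S'] (i : R →+* S)
    (g : S →+* S') (F : R[X][X]) (a b : S) : g (ev2 i F a b) = ev2 (g.comp i) F (g a) (g b) := by
  rw [ev2_def, ev2_def, hom_eval₂]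
  congr 1
  ext <;> simp

theorem ev2_map {R R' S : Type u} [CommRing R] [CommRing R'] [CommRing S] (i : R' →+* S)
    (g : R →+* R') (F : R[X][X]) (a b : S) :
    ev2 i (F.map (mapRingHom g)) a b = ev2 (i.comp g) F a b := by
  rw [ev2_def, ev2_def, eval₂_map]
  congr 1
  ext <;> simp

theorem ev2_scaleRoots {R S : Type u} [CommRing R] [CommRing S] (i : R →+* S) (F : R[X][X])
    (r : R) (a b : S) : ev2 i (F.scaleRoots (C r)) a (i r * b) = i r ^ F.natDegree * ev2 i F a b := by
  rw [ev2_def, ev2_def]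
  have := scaleRoots_eval₂_mul (p := F) (eval₂RingHom i a) b (C r)
  simpa using this

theorem ev2_mem {S : Type u} [CommRing S] {R : Type u} [CommRing R] (i : R →+* S) (B : Subring S)
    (hi : ∀ r, i r ∈ B) (F : R[X][X]) {a b : S} (ha : a ∈ B) (hb : b ∈ B) : ev2 i F a b ∈ B := by
  rw [ev2_def, eval₂_eq_sum_range]
  refine sum_mem fun k _ => mul_mem ?_ (pow_mem hb k)
  change eval₂ i a (F.coeff k) ∈ B
  rw [eval₂_eq_sum_range]
  exact sum_mem fun l _ => mul_mem (hi _) (pow_mem ha l)

end Pool.Agent.Helper95.SPL
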