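import Pool.Agent.Helper95.SPL.C

/-! # HPM, part D: scaling. -/

set_option autoImplicit false

namespace Pool.Agent.Helper95.SPL

open Polynomial Pool.Agent.Helper44.SPL

universe u

variable {Ω : Type u} [Field Ω] {T A : Subring Ω}

theorem phi_apply [IsLocalRing T] (h : PV T A) (a : A) :
    phi h.le a = IsLocalRing.residue T ⟨a, h.le a.2⟩ := rfl

theorem map_residue_map_inclusion [IsLocalRing T] (h : A ≤ T) (M : A[X][X]) :
    (M.map (mapRingHom (Subring.inclusion h))).map (mapRingHom (IsLocalRing.residue T)) =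
      M.map (mapRingHom (phi h)) := by
  rw [Polynomial.map_map, mapRingHom_comp]
  rfl

/-- scaling a function by a unit of `T` -/
theorem div_mem_of_scale [IsAlgClosed Ω] (hLI : StLI.{u}) [hl : IsLocalRing T] (hT : IC T)
    (h : PV T A) {X : Ω} (hX : X ∉ T) (hX' : X⁻¹ ∉ T) {y : Ω}
    (hy : y ∈ icl ((T : Set Ω) ∪ {X})) {M : (IsLocalRing.ResidueField T)[X][X]} (hM : M.Monic)
    (hMU : ∀ q : Ideal (icl ((T : Set Ω) ∪ {X})), Gen T (icl ((T : Set Ω) ∪ {X})) X q →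
      ∀ F : T[X][X], F.map (mapRingHom (IsLocalRing.residue T)) = M →
        ∀ h : ev2 T.subtype F X y ∈ icl ((T : Set Ω) ∪ {X}),
          (⟨ev2 T.subtype F X y, h⟩ : icl ((T : Set Ω) ∪ {X})) ∈ q)
    {ρ : Ω} (hρ : ρ ∈ T) (hρn : ρ ∉ nu T)
    (hV : ∀ i ≤ M.natDegree, ∀ j,
      (M.coeff i).coeff j / (IsLocalRing.residue T ⟨ρ, hρ⟩) ^ (M.natDegree - i) ∈ VV h) :
    y / ρ ∈ icl ((A : Set Ω) ∪ {X}) := by
  have hρ0 : ρ ≠ 0 := ne_zero_of_notMem_nu hρn
  have hρi : ρ⁻¹ ∈ T := inv_mem_of_notMem_nu hρ hρn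
  set r := IsLocalRing.residue T ⟨ρ, hρ⟩ with hr
  have hr0 : r ≠ 0 := residue_ne_zero.mpr hρn
  set N := M.scaleRoots (C r⁻¹) with hN
  have hNm : N.Monic := (monic_scaleRoots_iff _).mpr hM
  have hNV : ∀ i j, (N.coeff i).coeff j ∈ VV h := by
    intro i j
    rw [hN, coeff_scaleRoots, ← C_pow, coeff_mul_C, inv_pow, ← div_eq_mul_inv]
    by_cases hi : i ≤ M.natDegree
    · exact hV i hi j
    · rw [coeff_eq_zero_of_natDegree_lt (not_le.mp hi), coeff_zero, zero_div]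
      exact zero_mem _
  obtain ⟨MA, hMAm, hdeg, hMA⟩ := exists_lift h hNm hNV
  have huT : y / ρ ∈ icl ((T : Set Ω) ∪ {X}) := by
    rw [div_eq_mul_inv]
    exact mul_mem hy (T_le T X hρi)
  refine hLI Ω T A hl hT h X hX hX' (y / ρ) huT MA hMAm fun q hq hmem => ?_
  set MT := MA.map (mapRingHom (Subring.inclusion h.le)) with hMT
  have hMTm : MT.Monic := hMAm.map _
  set F := MT.scaleRoots (C (⟨ρ, hρ⟩ : T)) with hF
  have hFmap : F.map (mapRingHom (IsLocalRing.residue T)) = M := by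
    rw [hF, map_scaleRoots _ _ _ (by rw [hMTm.leadingCoeff, map_one]; exact one_ne_zero),
      hMT, map_residue_map_inclusion, hMA]
    have : (mapRingHom (IsLocalRing.residue T)) (C (⟨ρ, hρ⟩ : T)) = C r := by
      rw [coe_mapRingHom, map_C]
    rw [this, hN, ← scaleRoots_mul, ← C_mul, inv_mul_cancel₀ hr0, C_1, scaleRoots_one]
  have hev : ev2 T.subtype F X y = ρ ^ MT.natDegree * ev2 A.subtype MA X (y / ρ) := by
    have h1 : y = T.subtype ⟨ρ, hρ⟩ * (y / ρ) := by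
      change y = ρ * (y / ρ)
      field_simp
    conv_lhs => rw [h1]
    rw [hF, ev2_scaleRoots, hMT, ev2_map]
    rfl
  have hTD : ∀ t : T, T.subtype t ∈ icl ((T : Set Ω) ∪ {X}) := fun t => T_le T X t.2
  have h2 := hMU q hq F hFmap (ev2_mem T.subtype _ hTD F (X_mem T X) hy)
  have h3 : (ρ ^ MT.natDegree)⁻¹ ∈ T := by
    rw [← inv_pow]; exact T.pow_mem hρi _
  have h4 := q.mul_mem_left ⟨_, T_le T X h3⟩ h2
  convert h4 using 1
  refine Subtype.ext ?_
  change _ = (ρ ^ MT.natDegree)⁻¹ * ev2 T.subtype F X y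
  rw [hev, ← mul_assoc, inv_mul_cancel₀ (pow_ne_zero _ hρ0), one_mul]

end Pool.Agent.Helper95.SPL
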