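import Pool.Agent.Helper95.SPL.D

/-! # HPM, part E: minimal polynomials at the generic primes. -/

set_option autoImplicit false

namespace Pool.Agent.Helper95.SPL

open Polynomial Pool.Agent.Helper44.SPL

universe u

section good

variable {κ : Type u} [Field κ] (V : ValuationSubring κ)

/-- monic polynomials over `V[X]` that are `Z^d` modulo the maximal ideal -/
def Good (N : κ[X][X]) : Prop :=
  ∃ N' : V[X][X], N'.Monic ∧ N'.map (mapRingHom V.subtype) = N ∧
    N'.map (mapRingHom (IsLocalRing.residue V)) = X ^ N'.natDegree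

variable {V}

theorem Good.mul {N₁ N₂ : κ[X][X]} (h₁ : Good V N₁) (h₂ : Good V N₂) : Good V (N₁ * N₂) := by
  obtain ⟨a, ha, ha1, ha2⟩ := h₁
  obtain ⟨b, hb, hb1, hb2⟩ := h₂
  refine ⟨a * b, ha.mul hb, ?_, ?_⟩
  · rw [Polynomial.map_mul, ha1, hb1]
  · rw [Polynomial.map_mul, ha2, hb2, ← pow_add, ha.natDegree_mul hb]

theorem good_one : Good V (1 : κ[X][X]) :=
  ⟨1, monic_one, Polynomial.map_one _, by simp⟩

theorem Good.monic {N : κ[X][X]} (h : Good V N) : N.Monic := by
  obtain ⟨a, ha, ha1, _⟩ := h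
  rw [← ha1]; exact ha.map _

theorem Good.coeff {N : κ[X][X]} (h : Good V N) {i : ℕ} (hi : i < N.natDegree) (j : ℕ) :
    (N.coeff i).coeff j = 0 ∨ ((N.coeff i).coeff j)⁻¹ ∉ V := by
  obtain ⟨a, ha, ha1, ha2⟩ := h
  have hd : N.natDegree = a.natDegree := by
    rw [← ha1]; exact ha.natDegree_map _
  have h1 : (N.coeff i).coeff j = (((a.coeff i).coeff j : V) : κ) := by
    rw [← ha1, coeff_map, coe_mapRingHom, coeff_map]; rfl
  have h2 : IsLocalRing.residue V ((a.coeff i).coeff j) = 0 := by
    have := congrArg (fun f => (f.coeff i).coeff j) ha2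
    simp only [coeff_map, coe_mapRingHom, coeff_X_pow] at this
    rw [this, if_neg (by omega), coeff_zero]
  by_contra h
  push Not at h
  obtain ⟨h3, h4⟩ := h
  rw [h1] at h3 h4
  rw [IsLocalRing.residue_eq_zero_iff, IsLocalRing.mem_maximalIdeal, mem_nonunits_iff] at h2
  apply h2
  exact IsUnit.of_mul_eq_one ⟨_, h4⟩ (Subtype.ext (mul_inv_cancel₀ h3))

end good

attribute [local instance] Polynomial.algebra

/-- the abstract form of the argument: `E` is a field over `κ[X]` -/
theorem good_of_rad (hRAD : StRAD.{u}) {κ : Type u} [Field κ] (V : ValuationSubring κ)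
    {E : Type u} [Field E] (g : κ[X] →+* E) (hg : Function.Injective g)
    {μ : κ[X][X]} (hμ : μ.Monic) (hirr : Irreducible μ) {r : κ} (hr : r ≠ 0) {z : E}
    (hz : eval₂ g (g (C r) * z) μ = 0) {m : ℕ} (hm : 0 < m)
    (hzm : letI : Algebra V[X] E := (g.comp (mapRingHom V.subtype)).toAlgebra
      z ^ m ∈ Submodule.span (integralClosure V[X] E)
        (algebraMap V[X] E '' ((Ideal.map C (IsLocalRing.maximalIdeal V) : Ideal V[X]) :
          Set V[X]))) :
    Good V (μ.scaleRoots (C r⁻¹)) := by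
  letI i1 : Algebra V[X] E := (g.comp (mapRingHom V.subtype)).toAlgebra
  letI i2 : Algebra κ[X] E := g.toAlgebra
  have hinj : Function.Injective (algebraMap V[X] E) := by
    change Function.Injective (g.comp (mapRingHom V.subtype))
    rw [RingHom.coe_comp]
    exact hg.comp (by
      rw [coe_mapRingHom]; exact Polynomial.map_injective _ Subtype.val_injective)
  haveI : IsIntegrallyClosed V := inferInstance
  have hP : (Ideal.map C (IsLocalRing.maximalIdeal V) : Ideal V[X]).IsPrime :=
    Ideal.isPrime_map_C_of_isPrime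
  obtain ⟨hint, hcoef⟩ := hRAD V[X] E hinj _ hP z m hm hzm
  haveI : FaithfulSMul V[X] E := (faithfulSMul_iff_algebraMap_injective _ _).mpr hinj
  haveI : FaithfulSMul κ[X] E := (faithfulSMul_iff_algebraMap_injective _ _).mpr hg
  haveI : IsScalarTower V[X] κ[X] E := IsScalarTower.of_algebraMap_eq (fun x => rfl)
  set G := minpoly V[X] z with hG
  have hGm : G.Monic := minpoly.monic hint
  have hGz : aeval z G = 0 := minpoly.aeval _ _
  -- `μ` is the minimal polynomial of `r z` over `κ[X]`
  have hμ0 : aeval (algebraMap κ[X] E (C r) * z) μ = 0 := hz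
  have hint' : IsIntegral κ[X] (algebraMap κ[X] E (C r) * z) := ⟨μ, hμ, hμ0⟩
  have hdvd : ∀ F : κ[X][X], aeval (algebraMap κ[X] E (C r) * z) F = 0 → μ ∣ F := by
    intro F hF
    obtain ⟨c, hc⟩ := minpoly.isIntegrallyClosed_dvd hint' hμ0
    have h1 := minpoly.isIntegrallyClosed_dvd hint' hF
    rcases hirr.isUnit_or_isUnit hc with h2 | h2
    · exact absurd h2 (minpoly.not_isUnit _ _)
    · obtain ⟨u, hu⟩ := h2
      rw [hc, ← hu]
      exact (Units.mul_right_dvd).mpr h1
  -- `N` divides the minimal polynomial of `z` over `V[X]`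
  set N := μ.scaleRoots (C r⁻¹) with hN
  have hNm : N.Monic := (monic_scaleRoots_iff _).mpr hμ
  have hr1 : (C r : κ[X]) * C r⁻¹ = 1 := by rw [← C_mul, mul_inv_cancel₀ hr, C_1]
  have h3 : N ∣ G.map (algebraMap V[X] κ[X]) := by
    have h4 : μ ∣ (G.map (algebraMap V[X] κ[X])).scaleRoots (C r) := by
      apply hdvd
      apply scaleRoots_aeval_eq_zero
      rw [aeval_map_algebraMap]
      exact hGz
    have h5 := scaleRoots_dvd _ _ (r := C r⁻¹) h4
    rwa [← scaleRoots_mul, hr1, scaleRoots_one] at h5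
  -- so `N` has coefficients in `V[X]`
  have h6 : N ∈ Polynomial.lifts (algebraMap V[X] κ[X]) := by
    rw [Polynomial.lifts_iff_coeff_lifts]
    intro i
    have h7 := isIntegral_coeff_of_dvd G N hGm hNm h3 i
    have h8 : N.coeff i ∈ Polynomial.lifts (algebraMap V κ) := by
      rw [Polynomial.lifts_iff_coeff_lifts]
      intro j
      exact IsIntegrallyClosed.isIntegral_iff.mp (IsIntegral.coeff h7 j)
    exact h8
  obtain ⟨N', hN', hdeg, hN'm⟩ := lifts_and_natDegree_eq_and_monic h6 hNm
  have hN'z : aeval z N' = 0 := by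
    have h7 : z = algebraMap κ[X] E (C r⁻¹) * (algebraMap κ[X] E (C r) * z) := by
      rw [← mul_assoc, ← map_mul, mul_comm (C r⁻¹), hr1, map_one, one_mul]
    have h8 : aeval z N = 0 := by
      rw [h7]
      exact scaleRoots_aeval_eq_zero hμ0
    rw [← hN', aeval_map_algebraMap] at h8
    exact h8
  have h9 : G ∣ N' := minpoly.isIntegrallyClosed_dvd hint hN'z
  have h10 : N'.natDegree ≤ G.natDegree := by
    rw [hdeg, ← hGm.natDegree_map (algebraMap V[X] κ[X])]
    exact natDegree_le_of_dvd h3 (hGm.map _).ne_zero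
  have h11 : N' = G := Polynomial.eq_of_monic_of_dvd_of_natDegree_le hGm hN'm h9 h10
  refine ⟨N', hN'm, hN', ?_⟩
  ext i : 1
  rw [coeff_map, coeff_X_pow]
  split_ifs with h12
  · rw [h12, hN'm.coeff_natDegree, map_one]
  · rcases lt_or_gt_of_ne h12 with h13 | h13
    · rw [h11] at h13 ⊢
      have h14 := hcoef i h13
      rw [Ideal.mem_map_C_iff] at h14
      ext j
      rw [coe_mapRingHom, coeff_map, coeff_zero]
      exact (IsLocalRing.residue_eq_zero_iff _).mpr (h14 j)
    · rw [coeff_eq_zero_of_natDegree_lt h13, map_zero]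

end Pool.Agent.Helper95.SPL
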