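import Pool.Agent.Helper95.SPL.E

/-! # HPM, part F: the residue rings at the generic primes. -/

set_option autoImplicit false

namespace Pool.Agent.Helper95.SPL

open Polynomial Pool.Agent.Helper44.SPL

universe u

variable {Ω : Type u} [Field Ω] {T A : Subring Ω}

/-- the homomorphism `κ → D / q` for a generic prime `q` -/
noncomputable def kap [IsLocalRing T] {X : Ω} (q : Ideal (icl ((T : Set Ω) ∪ {X})))
    (hq : Gen T (icl ((T : Set Ω) ∪ {X})) X q) :
    IsLocalRing.ResidueField T →+* (icl ((T : Set Ω) ∪ {X})) ⧸ q :=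
  Ideal.Quotient.lift (IsLocalRing.maximalIdeal T)
    ((Ideal.Quotient.mk q).comp (Subring.inclusion (T_le T X))) (by
      intro t ht
      change Ideal.Quotient.mk q _ = 0
      rw [Ideal.Quotient.eq_zero_iff_mem]
      have h1 : (aeval X (C t) : Ω) ∈ icl ((T : Set Ω) ∪ {X}) := by
        rw [aeval_C]; exact T_le T X t.2
      have h2 := (hq.iff (C t) h1).mpr (fun i => by
        rw [coeff_C]
        split_ifs
        · exact mem_nu_iff_mem_maximalIdeal.mpr ht
        · exact zero_nu T)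
      convert h2 using 1
      refine Subtype.ext ?_
      change (t : Ω) = aeval X (C t)
      rw [aeval_C]; rfl)

theorem kap_residue [IsLocalRing T] {X : Ω} (q : Ideal (icl ((T : Set Ω) ∪ {X})))
    (hq : Gen T (icl ((T : Set Ω) ∪ {X})) X q) (t : T) :
    kap q hq (IsLocalRing.residue T t) = Ideal.Quotient.mk q ⟨t, T_le T X t.2⟩ := rfl

/-- the homomorphism `κ[X] → D / q` -/
noncomputable def gq [IsLocalRing T] {X : Ω} (q : Ideal (icl ((T : Set Ω) ∪ {X})))
    (hq : Gen T (icl ((T : Set Ω) ∪ {X})) X q) :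
    (IsLocalRing.ResidueField T)[X] →+* (icl ((T : Set Ω) ∪ {X})) ⧸ q :=
  eval₂RingHom (kap q hq) (Ideal.Quotient.mk q ⟨X, X_mem T X⟩)

theorem aeval_mem (X : Ω) (f : T[X]) : aeval X f ∈ icl ((T : Set Ω) ∪ {X}) := by
  rw [aeval_def, eval₂_eq_sum_range]
  exact sum_mem fun l _ => mul_mem (T_le T X (f.coeff l).2) (pow_mem (X_mem T X) l)

theorem gq_map [IsLocalRing T] {X : Ω} (q : Ideal (icl ((T : Set Ω) ∪ {X})))
    (hq : Gen T (icl ((T : Set Ω) ∪ {X})) X q) (f : T[X]) :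
    gq q hq (f.map (IsLocalRing.residue T)) = Ideal.Quotient.mk q ⟨aeval X f, aeval_mem X f⟩ := by
  have h1 : (gq q hq).comp (mapRingHom (IsLocalRing.residue T)) =
      (Ideal.Quotient.mk q).comp (eval₂RingHom (Subring.inclusion (T_le T X))
        (⟨X, X_mem T X⟩ : icl ((T : Set Ω) ∪ {X}))) := by
    apply Polynomial.ringHom_ext
    · intro t
      simp only [RingHom.comp_apply, coe_mapRingHom, map_C, gq, coe_eval₂RingHom, eval₂_C]
      exact kap_residue q hq t
    · simp only [RingHom.comp_apply, coe_mapRingHom, map_X, gq, coe_eval₂RingHom, eval₂_X]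
  have h2 := congrArg (fun g => g f) h1
  simp only [RingHom.comp_apply, coe_mapRingHom] at h2
  rw [h2]
  congr 1
  refine Subtype.ext ?_
  change (icl ((T : Set Ω) ∪ {X})).subtype (eval₂ _ _ f) = aeval X f
  rw [hom_eval₂]
  rfl

theorem gq_injective [IsLocalRing T] {X : Ω} (q : Ideal (icl ((T : Set Ω) ∪ {X})))
    (hq : Gen T (icl ((T : Set Ω) ∪ {X})) X q) : Function.Injective (gq q hq) := by
  rw [injective_iff_map_eq_zero]
  intro f hf
  obtain ⟨f, rfl⟩ := Polynomial.map_surjective _ (IsLocalRing.residue_surjective (R := T)) f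
  rw [gq_map, Ideal.Quotient.eq_zero_iff_mem] at hf
  have h1 := (hq.iff f (aeval_mem X f)).mp hf
  ext i
  rw [coeff_map, coeff_zero, IsLocalRing.residue_eq_zero_iff]
  exact mem_nu_iff_mem_maximalIdeal.mp (h1 i)

/-- evaluation of two variable polynomials -/
theorem eval₂_gq [IsLocalRing T] {X : Ω} (q : Ideal (icl ((T : Set Ω) ∪ {X})))
    (hq : Gen T (icl ((T : Set Ω) ∪ {X})) X q) {y : Ω} (hy : y ∈ icl ((T : Set Ω) ∪ {X}))
    (F : T[X][X]) (h : ev2 T.subtype F X y ∈ icl ((T : Set Ω) ∪ {X})) :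
    eval₂ (gq q hq) (Ideal.Quotient.mk q ⟨y, hy⟩)
      (F.map (mapRingHom (IsLocalRing.residue T))) = Ideal.Quotient.mk q ⟨_, h⟩ := by
  have h1 : (⟨_, h⟩ : icl ((T : Set Ω) ∪ {X})) =
      ev2 (Subring.inclusion (T_le T X)) F (⟨X, X_mem T X⟩ : icl ((T : Set Ω) ∪ {X})) ⟨y, hy⟩ := by
    refine Subtype.ext ?_
    change _ = (icl ((T : Set Ω) ∪ {X})).subtype _
    rw [hom_ev2]
    rfl
  rw [h1, hom_ev2, ev2_def, eval₂_map]
  congr 1
  apply Polynomial.ringHom_ext
  · intro t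
    simp only [RingHom.comp_apply, coe_mapRingHom, map_C, gq, coe_eval₂RingHom, eval₂_C]
    exact kap_residue q hq t
  · simp only [RingHom.comp_apply, coe_mapRingHom, map_X, gq, coe_eval₂RingHom, eval₂_X]

/-- powers in `nu A · icl (A, X)` -/
theorem span_mem [IsLocalRing T] (hPV : PV T A) {X : Ω}
    (q : Ideal (icl ((T : Set Ω) ∪ {X}))) (hq : Gen T (icl ((T : Set Ω) ∪ {X})) X q)
    {E : Type u} [Field E] (e : (icl ((T : Set Ω) ∪ {X})) ⧸ q →+* E)
    {w : Ω} (hw : w ∈ ext (nu A) (icl ((A : Set Ω) ∪ {X})))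
    (hwT : w ∈ icl ((T : Set Ω) ∪ {X})) :
    letI : Algebra (VV hPV)[X] E :=
      ((e.comp (gq q hq)).comp (mapRingHom (VV hPV).subtype)).toAlgebra
    e (Ideal.Quotient.mk q ⟨w, hwT⟩) ∈ Submodule.span (integralClosure (VV hPV)[X] E)
        (algebraMap (VV hPV)[X] E ''
          ((Ideal.map C (IsLocalRing.maximalIdeal (VV hPV)) : Ideal (VV hPV)[X]) :
          Set (VV hPV)[X])) := by
  letI i1 : Algebra (VV hPV)[X] E :=
      ((e.comp (gq q hq)).comp (mapRingHom (VV hPV).subtype)).toAlgebra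
  let D := icl ((T : Set Ω) ∪ {X})
  let η : D →+* E := e.comp (Ideal.Quotient.mk q)
  have hle : icl ((A : Set Ω) ∪ {X}) ≤ D := icl_le_icl hPV.le X
  -- `η` on `A` and on `X`
  have hA : ∀ (a : Ω) (ha : a ∈ A), ∃ s : VV hPV, ((s : IsLocalRing.ResidueField T) =
      IsLocalRing.residue T ⟨a, hPV.le ha⟩) ∧
      algebraMap (VV hPV)[X] E (C s) = η ⟨a, T_le T X (hPV.le ha)⟩ := by
    intro a ha
    refine ⟨⟨IsLocalRing.residue T ⟨a, hPV.le ha⟩, (mem_VV hPV).mpr ha⟩, rfl, ?_⟩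
    change e (gq q hq (mapRingHom _ (C _))) = e _
    congr 1
    rw [coe_mapRingHom, map_C]
    change gq q hq (C (IsLocalRing.residue T ⟨a, hPV.le ha⟩)) = _
    rw [gq, coe_eval₂RingHom, eval₂_C]
    rfl
  have hXm : algebraMap (VV hPV)[X] E Polynomial.X = η ⟨X, X_mem T X⟩ := by
    change e (gq q hq (mapRingHom _ Polynomial.X)) = e _
    congr 1
    rw [coe_mapRingHom, map_X, gq, coe_eval₂RingHom, eval₂_X]
  have hRD : Subring.closure ((A : Set Ω) ∪ {X}) ≤ D := by
    rw [Subring.closure_le]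
    exact (Set.union_subset_union_left _ hPV.le).trans (subset_icl _)
  have hR : ∀ r : Ω, ∀ hr : r ∈ Subring.closure ((A : Set Ω) ∪ {X}),
      ∃ s : (VV hPV)[X], algebraMap (VV hPV)[X] E s = η ⟨r, hRD hr⟩ := by
    intro r hr
    have h2 : (⟨r, hRD hr⟩ : D) ∈ ((algebraMap (VV hPV)[X] E).range.comap η) := by
      have h3 : Subring.closure ((A : Set Ω) ∪ {X}) ≤
          ((algebraMap (VV hPV)[X] E).range.comap η).map D.subtype := by
        rw [Subring.closure_le]
        rintro x (hx | hx)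
        · obtain ⟨s, _, hs⟩ := hA x hx
          exact ⟨⟨x, T_le T X (hPV.le hx)⟩, ⟨C s, hs⟩, rfl⟩
        · rw [Set.mem_singleton_iff] at hx
          subst hx
          exact ⟨⟨x, X_mem T x⟩, ⟨Polynomial.X, hXm⟩, rfl⟩
      obtain ⟨y, hy, hyr⟩ := h3 hr
      have : y = ⟨r, hRD hr⟩ := Subtype.ext hyr
      rw [← this]; exact hy
    exact h2
  have hint : ∀ (d : Ω) (hd : d ∈ icl ((A : Set Ω) ∪ {X})),
      IsIntegral (VV hPV)[X] (η ⟨d, hle hd⟩) := by
    intro d hd
    obtain ⟨f, hf, hfd⟩ := mem_icl.mp hd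
    let k : Subring.closure ((A : Set Ω) ∪ {X}) →+* D := Subring.inclusion hRD
    have h3 : f.map (η.comp k) ∈ Polynomial.lifts (algebraMap (VV hPV)[X] E) := by
      rw [Polynomial.lifts_iff_coeff_lifts]
      intro i
      rw [coeff_map]
      exact hR _ (f.coeff i).2
    obtain ⟨g, hg, _, hgm⟩ := lifts_and_natDegree_eq_and_monic h3 (hf.map _)
    refine ⟨g, hgm, ?_⟩
    rw [← eval_map, hg, eval_map, ← hom_eval₂]
    have h4 : eval₂ k (⟨d, hle hd⟩ : D) f = 0 := by
      apply Subtype.val_injective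
      change D.subtype _ = D.subtype 0
      rw [hom_eval₂, map_zero]
      exact hfd
    rw [h4, map_zero]
  have key : ∀ z ∈ ext (nu A) (icl ((A : Set Ω) ∪ {X})), ∃ hz : z ∈ icl ((A : Set Ω) ∪ {X}),
      η ⟨z, hle hz⟩ ∈ Submodule.span (integralClosure (VV hPV)[X] E)
        (algebraMap (VV hPV)[X] E ''
          ((Ideal.map C (IsLocalRing.maximalIdeal (VV hPV)) : Ideal (VV hPV)[X]) :
          Set (VV hPV)[X])) := by
    intro z hz
    induction hz using Submodule.span_induction with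
    | mem x hx =>
      refine ⟨T_le A X hx.1, ?_⟩
      obtain ⟨s, hs, hs'⟩ := hA x hx.1
      refine Submodule.subset_span ⟨C s, ?_, hs'⟩
      refine Ideal.mem_map_of_mem _ ?_
      rw [IsLocalRing.mem_maximalIdeal, mem_nonunits_iff]
      intro hu
      obtain ⟨t, ht⟩ := hu.exists_left_inv
      have h5 : (t : IsLocalRing.ResidueField T) *
          IsLocalRing.residue T ⟨x, hPV.le hx.1⟩ = 1 := by
        rw [← hs]; exact congrArg Subtype.val ht
      have h6 : IsLocalRing.residue T ⟨x, hPV.le hx.1⟩ ≠ 0 := right_ne_zero_of_mul_eq_one h5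
      have h7 := residue_ne_zero.mp h6
      have h8 := inv_mem_of_notMem_nu (hPV.le hx.1) h7
      have h9 : x ≠ 0 := ne_zero_of_notMem_nu h7
      have h10 := residue_inv (hPV.le hx.1) h8 h9
      rw [← eq_inv_of_mul_eq_one_left h5] at h10
      have h11 : x⁻¹ ∈ A := (mem_VV hPV (t := ⟨x⁻¹, h8⟩)).mp (by rw [h10]; exact t.2)
      rcases hx.2 with h | h
      · exact h9 h
      · exact h h11
    | zero =>
      refine ⟨zero_mem _, ?_⟩
      have : (⟨0, hle (zero_mem _)⟩ : D) = 0 := rfl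
      rw [this, map_zero]
      exact zero_mem _
    | add x y _ _ hx hy =>
      obtain ⟨hx1, hx2⟩ := hx
      obtain ⟨hy1, hy2⟩ := hy
      refine ⟨add_mem hx1 hy1, ?_⟩
      have : (⟨x + y, hle (add_mem hx1 hy1)⟩ : D) = ⟨x, hle hx1⟩ + ⟨y, hle hy1⟩ := rfl
      rw [this, map_add]
      exact add_mem hx2 hy2
    | smul d x _ hx =>
      obtain ⟨hx1, hx2⟩ := hx
      refine ⟨mul_mem d.2 hx1, ?_⟩
      have : (⟨(d : Ω) * x, hle (mul_mem d.2 hx1)⟩ : D) = ⟨d, hle d.2⟩ * ⟨x, hle hx1⟩ := rfl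
      change η (⟨(d : Ω) * x, hle (mul_mem d.2 hx1)⟩ : D) ∈ _
      rw [this, map_mul]
      exact Submodule.smul_mem _ (⟨η ⟨d, hle d.2⟩, hint d d.2⟩ : integralClosure (VV hPV)[X] E) hx2
  obtain ⟨_, h⟩ := key w hw
  exact h

end Pool.Agent.Helper95.SPL
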